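import Mathlib
import Pool.Agent.H17.Hid2

namespace Pool.Agent.Results.MP_ec84ce_an.Yes

open Set

/-- `C` hides `A`. -/
def Hides {X : Type} [AddCommGroup X] [Module ℝ X] (C A : Set X) : Prop :=
  ∀ a ∈ A, ∀ b ∈ A, a ≠ b → (segment ℝ a b ∩ C).Nonempty

/-- `C` is polyhedric in `D'`. -/
def Polyhedric {X : Type} [AddCommGroup X] [Module ℝ X] (C D' : Set X) : Prop :=
  ∃ (n : ℕ) (H : Fin (n + 1) → Set X),
    (∀ i, H i ⊆ D' ∧ Convex ℝ (H i) ∧ Convex ℝ (D' \ H i)) ∧ C = ⋂ i, H i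

lemma three {X : Type} [AddCommGroup X] [Module ℝ X] (L : AffineSubspace ℝ X) {a b c : X}
    (ha : a ∉ L) (hb : b ∉ L) (hc : c ∉ L) (h1 : (segment ℝ a b ∩ L).Nonempty)
    (h2 : (segment ℝ a c ∩ L).Nonempty) (h3 : (segment ℝ b c ∩ L).Nonempty) : False := by
  obtain ⟨o, ho⟩ : (L : Set X).Nonempty := h1.mono inter_subset_right
  let π : X → X ⧸ L.direction := fun x => L.direction.mkQ (x - o)
  have hπ : ∀ x, π x = 0 ↔ x ∈ L := fun x => by
    simp only [π, Submodule.mkQ_apply, Submodule.Quotient.mk_eq_zero]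
    exact AffineSubspace.vsub_right_mem_direction_iff_mem ho x
  have key : ∀ {x y : X}, x ∉ L → y ∉ L → (segment ℝ x y ∩ L).Nonempty →
      ∃ r s : ℝ, 0 < r ∧ 0 < s ∧ r • π x + s • π y = 0 := by
    rintro x y hx hy ⟨_, ⟨r, s, hr, hs, e, rfl⟩, hz⟩
    refine ⟨r, s, hr.lt_of_ne ?_, hs.lt_of_ne ?_, ?_⟩
    · rintro rfl
      rw [zero_add] at e
      exact hy (by simpa [e] using hz)
    · rintro rfl
      rw [add_zero] at e
      exact hx (by simpa [e] using hz)
    · rw [← (hπ _).2 hz]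
      simp only [π, ← map_smul, ← map_add]
      congr 1
      rw [smul_sub, smul_sub, sub_add_sub_comm, ← add_smul, e, one_smul]
  obtain ⟨r, s, hr, hs, e1⟩ := key ha hb h1
  obtain ⟨t, u, ht, hu, e2⟩ := key ha hc h2
  obtain ⟨v, w, hv, hw, e3⟩ := key hb hc h3
  have : (r * v * u + t * w * s) • π a = 0 := by
    linear_combination (norm := module) (v * u) • e1 + (w * s) • e2 - (s * u) • e3
  exact ha ((hπ a).1 ((smul_eq_zero.1 this).resolve_left (by positivity)))

theorem result (X : Type) [AddCommGroup X] [Module ℝ X] [MetricSpace X] [CompleteSpace X]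
    [IsTopologicalAddGroup X] [ContinuousSMul ℝ X] (C D : Set X) (hC : Convex ℝ C)
    (hC' : IsClosed C) (hD : Convex ℝ D) (_hD' : IsClosed D) (hCD : C ⊆ D) :
    (∀ A ⊆ D \ C, A.Infinite → ¬ Hides C A) ↔ Polyhedric C (D ∩ affineSpan ℝ C) := by
  have hcv : Convex ℝ (D ∩ affineSpan ℝ C) := hD.inter (affineSpan ℝ C).convex
  constructor
  · intro hn
    rcases C.eq_empty_or_nonempty with rfl | ⟨o, ho⟩
    · exact ⟨0, fun _ => ∅, fun _ => ⟨empty_subset _, convex_empty, by simpa using hcv⟩, (iInter_const _).symm⟩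
    obtain ⟨n, K, hK, hcov⟩ := Pool.Agent.H17.Hid.finite_cover (C := (o + ·) ⁻¹' C)
      (D := (o + ·) ⁻¹' D) (hC.translate_preimage_right o) (hC'.preimage (by fun_prop))
      (hD.translate_preimage_right o) (preimage_mono hCD) (by simpa using ho) (fun A hA hi hp => by
        refine hn ((o + ·) '' A) (image_subset_iff.2 hA) (hi.image (add_right_injective o).injOn) ?_
        rintro _ ⟨a, ha, rfl⟩ _ ⟨b, hb, rfl⟩ hne
        obtain ⟨z, hz, hzC⟩ := hp ha hb fun e => hne (by rw [e])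
        exact ⟨o + z, (mem_segment_translate ℝ o).2 hz, hzC⟩)
    choose H h1 h2 h3 h4 using fun i => exists_convex_convex_compl_subset hC ((hK i).1.translate o)
      (disjoint_right.2 (by
        rintro _ ⟨x, hx, rfl⟩ h
        exact disjoint_left.1 (hK i).2 hx h))
    refine ⟨n, fun i => D ∩ affineSpan ℝ C ∩ H i, fun i => ⟨inter_subset_left, hcv.inter (h1 i), ?_⟩,
      (subset_iInter fun i x hx => by exact ⟨⟨hCD hx, mem_affineSpan ℝ hx⟩, h3 i hx⟩).antisymm fun x hx => ?_⟩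
    · rw [sdiff_self_inter]
      exact hcv.inter (h2 i)
    · rw [mem_iInter] at hx
      by_contra hxC
      have hs : x - o ∈ Submodule.span ℝ ((o + ·) ⁻¹' C) := by
        have := (AffineSubspace.vsub_right_mem_direction_iff_mem (mem_affineSpan ℝ ho) x).2 (hx 0).1.2
        rw [direction_affineSpan, vectorSpan_eq_span_vsub_set_right ℝ ho] at this
        refine Submodule.span_mono ?_ this
        rintro _ ⟨y, hy, rfl⟩
        simpa using hy
      obtain ⟨i, hi⟩ := mem_iUnion.1 (hcov ⟨⟨by simpa using (hx 0).1.1, by simpa using hxC⟩, hs⟩)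
      exact h4 i ⟨_, hi, by simp⟩ (hx i).2
  · rintro ⟨n, H, hH, hCH⟩ A hA hi hh
    have sub : ∀ {a b : X}, (segment ℝ a b ∩ C).Nonempty →
        (segment ℝ a b ∩ affineSpan ℝ C).Nonempty := fun h =>
      h.mono (inter_subset_inter_right _ (subset_affineSpan ℝ C))
    have hfin : (A \ affineSpan ℝ C).Finite := by
      classical
      by_contra h
      obtain ⟨s, hs, h3⟩ := Set.Infinite.exists_subset_card_eq h 3
      obtain ⟨a, b, c, ab, ac, bc, rfl⟩ := Finset.card_eq_three.1 h3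
      have ha := hs (a := a) (by simp)
      have hb := hs (a := b) (by simp)
      have hc := hs (a := c) (by simp)
      exact three _ ha.2 hb.2 hc.2 (sub (hh _ ha.1 _ hb.1 ab)) (sub (hh _ ha.1 _ hc.1 ac))
        (sub (hh _ hb.1 _ hc.1 bc))
    have hinf : (A ∩ affineSpan ℝ C).Infinite := fun h => hi ((h.union hfin).subset (by simp))
    have : ∀ a, ∃ i, a ∉ C → a ∉ H i := fun a => by
      by_cases h : a ∈ C
      · exact ⟨0, fun h' => absurd h h'⟩
      · rw [hCH, mem_iInter, not_forall] at h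
        exact h.imp fun i hi _ => hi
    choose g hg using this
    obtain ⟨a, ha, b, hb, hne, e⟩ := hinf.exists_ne_map_eq_of_mapsTo (mapsTo_univ g _) finite_univ
    obtain ⟨z, hz, hzC⟩ := hh a ha.1 b hb.1 hne
    exact ((hH (g a)).2.2.segment_subset ⟨⟨(hA ha.1).1, ha.2⟩, hg a (hA ha.1).2⟩
      ⟨⟨(hA hb.1).1, hb.2⟩, e ▸ hg b (hA hb.1).2⟩ hz).2 (mem_iInter.1 (hCH ▸ hzC) _)

end Pool.Agent.Results.MP_ec84ce_an.Yes
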